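import Pool.Agent.Helper35.SHR.Sheet2

/-! # SHR: the row STARN -/

namespace SHR
open SHQ
open scoped ENNReal

namespace S38

theorem le_SB (h1 : ST_STAR) {n : ℕ} (z : ℝ≥0∞) (o : Om) (a b : Fin 3) (f : St n → ℝ≥0∞)
    (s : St n) : f s ≤ SB z o a b f s := by
  rw [(h1 n z o a b f s).1]
  exact le_self_add

theorem le_SJ (h1 : ST_STAR) {n : ℕ} (z : ℝ≥0∞) (o : Om) (a : Fin 3) (f : St n → ℝ≥0∞)
    (s : St n) : f s ≤ SJ z o a f s := by
  rw [(h1 n z o a a f s).2]
  exact le_self_add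

theorem toE_mul_le (h2 : ST_WTN) {a b : ℕ} {x y : ℝ≥0∞} (ha : toE a ≤ x) (hb : toE b ≤ y) :
    toE (mulN a b) ≤ x * y :=
  ((h2.1 a b).1).trans (mul_le_mul' ha hb)

theorem toE_LN_le (h2 : ST_WTN) {n : ℕ} {p g : Fin 3} (hpg : g ≠ p) (o : NOm) (a : Fin 3)
    (F : St n → ℕ) (f : St n → ℝ≥0∞) (s : St n)
    (hF : ∀ s, toE (F (rs p g s)) ≤ f s) :
    toE (LN o (rl p g a) F (rs p g s)) ≤ wt o.om s a * f (nx s a) := by
  obtain ⟨-, -, -, -, h⟩ := h2.2.2 n p g hpg
  obtain ⟨hw, hn, -⟩ := h o s a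
  unfold LN
  rw [hn]
  exact toE_mul_le h2 hw.le (hF _)

end S38

theorem st_STARN (h1 : ST_STAR) (h2 : ST_WTN) : ST_STARN := by
  intro n z o p g F f hpg hF Y
  have hadd : ∀ a b : ℕ, toE (a + b) = toE a + toE b := fun a b => (h2.1 a b).2.2.1
  have hmemo : ∀ f : St n → ℕ, memo f = f := h2.2.1 n
  induction Y with
  | zero =>
    intro a b s
    refine ⟨?_, ?_⟩
    · show toE (memo F (rs p g s)) ≤ _
      rw [hmemo]
      exact (hF s).trans (S38.le_SB h1 _ _ _ _ _ _)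
    · show toE (memo F (rs p g s)) ≤ _
      rw [hmemo]
      exact (hF s).trans (S38.le_SJ h1 _ _ _ _ _)
  | succ Y ih =>
    intro a b s
    refine ⟨?_, ?_⟩
    · rw [(h1 n (toE z) o.om a b f s).1]
      show toE (memo (fun s => F s + mulN z (LN o (rl p g a) (star2 z o (rl p g a) (rl p g b) F Y) s
        + LN o (rl p g b) (star2 z o (rl p g a) (rl p g b) F Y) s)) (rs p g s)) ≤ _
      rw [hmemo]
      show toE (F (rs p g s) + mulN z (LN o (rl p g a) (star2 z o (rl p g a) (rl p g b) F Y)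
        (rs p g s) + LN o (rl p g b) (star2 z o (rl p g a) (rl p g b) F Y) (rs p g s))) ≤ _
      rw [hadd]
      refine add_le_add (hF s) (S38.toE_mul_le h2 le_rfl ?_)
      rw [hadd]
      exact add_le_add
        (S38.toE_LN_le h2 hpg o a _ _ s (fun s => (ih a b s).1))
        (S38.toE_LN_le h2 hpg o b _ _ s (fun s => (ih a b s).1))
    · rw [(h1 n (toE z) o.om a b f s).2]
      show toE (memo (fun s => F s + mulN z (LN o (rl p g a) (star1 z o (rl p g a) F Y) s))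
        (rs p g s)) ≤ _
      rw [hmemo]
      show toE (F (rs p g s) + mulN z (LN o (rl p g a) (star1 z o (rl p g a) F Y) (rs p g s))) ≤ _
      rw [hadd]
      exact add_le_add (hF s) (S38.toE_mul_le h2 le_rfl
        (S38.toE_LN_le h2 hpg o a _ _ s (fun s => (ih a b s).2)))

end SHR
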